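import Pool.Agent.H93.SC.Targets

/-!
Targets of blocks B3 (classification of the discrete valuations of a generic complete
intersection) and B4 (dimension theory) for MP_f2954d_ag.
-/

namespace SC

/-! ### Classification -/

/-- type D: nontrivial on `K` -/
def T_C1 : Prop := ∀ (k K L J J' : Type) [Field k] [Field K] [Field L] [Algebra k K] [Algebra K L]
  [Algebra k L] [IsScalarTower k K L] [Fintype J] [Fintype J'] (S : J → Sys K) (T : J' → Sys K)
  (U : Var S → L) (w : DV (kU k U) L), (∀ j, (S j).Nz) → (∀ j, (T j).Nz) → IsGen S U →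
  AlgebraicIndependent k U → Algebra.trdeg k K = (Fintype.card J + Fintype.card J' + 1 : ℕ) →
  Idx (fun j => w.res ((T j).up L)) (kU k U) ≠ 0 → (∃ x : K, w.ord (algebraMap K L x) ≠ 0) →
  ∃ v : DV k K, Gauss v w S U ∧
    Idx (fun j => w.res ((T j).up L)) (kU k U) = Idx (fun j => v.res (Sum.elim S T j)) k

/-- index of a Gauss extension -/
def T_C1g : Prop := ∀ (k K L J J' : Type) [Field k] [Field K] [Field L] [Algebra k K] [Algebra K L]
  [Algebra k L] [IsScalarTower k K L] [Finite J] [Finite J'] (S : J → Sys K) (T : J' → Sys K)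
  (U : Var S → L) (v : DV k K) (w : DV (kU k U) L), (∀ j, (S j).Nz) → (∀ j, (T j).Nz) →
  IsGen S U → AlgebraicIndependent k U → Gauss v w S U →
  Idx (fun j => w.res ((T j).up L)) (kU k U) = Idx (fun j => v.res (Sum.elim S T j)) k

/-- type P: trivial on `K`, then `p`-adic for an irreducible polynomial in the free variables -/
def T_C2 : Prop := ∀ (k K L J J' : Type) [Field k] [Field K] [Field L] [Algebra k K] [Algebra K L]
  [Algebra k L] [IsScalarTower k K L] [Fintype J] [Fintype J'] (S : J → Sys K) (T : J' → Sys K)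
  (U : Var S → L) (w : DV (kU k U) L) (i0 : ∀ j, Fin (S j).r), (∀ j, (T j).Nz) → IsGen S U →
  (∀ j, (S j).s (i0 j) ≠ 0) → AlgebraicIndependent k U →
  Algebra.trdeg k K = (Fintype.card J + Fintype.card J' + 1 : ℕ) →
  Idx (fun j => w.res ((T j).up L)) (kU k U) ≠ 0 → (∀ x : K, w.ord (algebraMap K L x) = 0) →
  ∃ p : MvPolynomial {x : Var S // x.2 ≠ i0 x.1} K, Irreducible p ∧
    w.ord (MvPolynomial.aeval (fun x : {x : Var S // x.2 ≠ i0 x.1} => U x.1) p) = 1 ∧
    ∀ q : MvPolynomial {x : Var S // x.2 ≠ i0 x.1} K, ¬ p ∣ q →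
      w.ord (MvPolynomial.aeval (fun x : {x : Var S // x.2 ≠ i0 x.1} => U x.1) q) = 0

/-- the class of a type P valuation -/
def T_C3 : Prop := ∀ (k K L J : Type) [Field k] [CharZero k] [Field K] [Field L] [Algebra k K]
  [Algebra K L] [Algebra k L] [IsScalarTower k K L] [Algebra.EssFiniteType k K] [Fintype J]
  (S : J → Sys K) (U : Var S → L) (w : DV (kU k U) L) (i0 : ∀ j, Fin (S j).r),
  (∀ j, (S j).Nz) → IsGen S U → (∀ j, (S j).s (i0 j) ≠ 0) → AlgebraicIndependent k U →
  (∀ x : K, w.ord (algebraMap K L x) = 0) →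
  ∀ p : MvPolynomial {x : Var S // x.2 ≠ i0 x.1} K, Irreducible p →
    w.ord (MvPolynomial.aeval (fun x : {x : Var S // x.2 ≠ i0 x.1} => U x.1) p) = 1 →
    (∀ q : MvPolynomial {x : Var S // x.2 ≠ i0 x.1} K, ¬ p ∣ q →
      w.ord (MvPolynomial.aeval (fun x : {x : Var S // x.2 ≠ i0 x.1} => U x.1) q) = 0) →
  ∃ ν : DV k K → ℤ, ∀ (J' : Type) [Fintype J'] (T : J' → Sys K), (∀ j, (T j).Nz) →
    Algebra.trdeg k K = (Fintype.card J + Fintype.card J' + 1 : ℕ) →
    {v : DV k K | ν v ≠ 0 ∧ Idx (fun j => v.res (Sum.elim S T j)) k ≠ 0}.Finite ∧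
    (Idx (fun j => w.res ((T j).up L)) (kU k U) : ℤ) =
      ∑ᶠ v : DV k K, ν v * (Idx (fun j => v.res (Sum.elim S T j)) k : ℤ)

/-- a type P valuation has a finitely generated residue field of the right dimension -/
def T_C4a : Prop := ∀ (k K L J J' : Type) [Field k] [Field K] [Field L] [Algebra k K]
  [Algebra K L] [Algebra k L] [IsScalarTower k K L] [Algebra.EssFiniteType k K] [Fintype J]
  [Fintype J'] (S : J → Sys K) (T : J' → Sys K) (U : Var S → L) (w : DV (kU k U) L)
  (i0 : ∀ j, Fin (S j).r), (∀ j, (T j).Nz) → IsGen S U → (∀ j, (S j).s (i0 j) ≠ 0) →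
  AlgebraicIndependent k U → Idx (fun j => w.res ((T j).up L)) (kU k U) ≠ 0 →
  (∀ x : K, w.ord (algebraMap K L x) = 0) →
  ∀ p : MvPolynomial {x : Var S // x.2 ≠ i0 x.1} K, Irreducible p →
    w.ord (MvPolynomial.aeval (fun x : {x : Var S // x.2 ≠ i0 x.1} => U x.1) p) = 1 →
    (∀ q : MvPolynomial {x : Var S // x.2 ≠ i0 x.1} K, ¬ p ∣ q →
      w.ord (MvPolynomial.aeval (fun x : {x : Var S // x.2 ≠ i0 x.1} => U x.1) q) = 0) →
  Algebra.EssFiniteType (kU k U) w.Res ∧
    Algebra.trdeg (kU k U) w.Res = (Fintype.card J' : ℕ) ∧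
    IntermediateField.adjoin (kU k U) (Set.range fun x : K => w.red (algebraMap K L x)) = ⊤

/-- degree of a formal combination of systems against a family -/
noncomputable def degs {K J : Type} [Field K] (k : Type) [Field k] [Algebra k K] (S : J → Sys K)
    (φ : List (ℤ × Sys K)) : ℤ :=
  (φ.map fun p => p.1 * (Idx (Sum.elim (fun _ : Unit => p.2) S) k : ℤ)).sum

/-- a formal combination of systems in an extension field -/
def upl {K : Type} [Field K] (L : Type) [Field L] [Algebra K L] (φ : List (ℤ × Sys K)) :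
    List (ℤ × Sys L) := φ.map fun p => (p.1, p.2.up L)

/-- all systems of a formal combination are nonzero -/
def Nzl {K : Type} [Field K] (φ : List (ℤ × Sys K)) : Prop := ∀ p ∈ φ, p.2.Nz

open Classical in
/-- moving a type P valuation: for some `j` the system `S j` can be replaced by `a` -/
def T_C4 : Prop := ∀ (k K L J J' : Type) [Field k] [CharZero k] [Field K] [Field L] [Algebra k K]
  [Algebra K L] [Algebra k L] [IsScalarTower k K L] [Algebra.EssFiniteType k K] [Fintype J]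
  [Fintype J'] (S : J → Sys K) (T : J' → Sys K) (U : Var S → L) (w : DV (kU k U) L),
  (∀ j, (S j).Nz) → (∀ j, (T j).Nz) → IsGen S U →
  AlgebraicIndependent k U → Fintype.card J' = 2 → Algebra.trdeg k K = (Fintype.card J + 3 : ℕ) →
  Idx (fun j => w.res ((T j).up L)) (kU k U) ≠ 0 →
  (∀ x : K, w.ord (algebraMap K L x) = 0) →
  ∃ j : J, ∀ (a : Sys K), a.Nz → ∀ (L' : Type) [Field L'] [Algebra K L'] [Algebra k L']
    [IsScalarTower k K L'] (U' : Var (Function.update S j a) → L'),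
    IsGen (Function.update S j a) U' → ∀ φ : List (ℤ × Sys K), Nzl φ →
    (∃ g ∈ Hs (kU k U') (upl L' φ), g ≠ 0) →
    0 ≤ (φ.map fun p => p.1 * (Idx (fun i : Fin 2 => w.res ((![p.2, a] i).up L)) (kU k U) : ℤ)).sum

/-! ### Dimension theory -/

/-- curves: negative degree -/
def T_D0a : Prop := ∀ (k K : Type) [Field k] [CharZero k] [Field K] [Algebra k K]
  [Algebra.EssFiniteType k K], Algebra.trdeg k K = 1 → ∀ φ : List (ℤ × Sys K), Nzl φ →
  degs k (fun i : Empty => i.elim) φ < 0 → Hs k φ = ⊥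

/-- curves: upper bound -/
def T_D0b : Prop := ∀ (k K : Type) [Field k] [CharZero k] [Field K] [Algebra k K]
  [Algebra.EssFiniteType k K], Algebra.trdeg k K = 1 → ∀ φ : List (ℤ × Sys K), Nzl φ →
  Module.Finite k (Hs k φ) ∧ (Module.finrank k (Hs k φ) : ℤ) ≤
    Module.finrank k (Hs k ([] : List (ℤ × Sys K))) + max 0 (degs k (fun i : Empty => i.elim) φ)

/-- restriction to a generic section maps `H` to `H` -/
def T_D3a : Prop := ∀ (k K L J : Type) [Field k] [Field K] [Field L] [Algebra k K] [Algebra K L]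
  [Algebra k L] [IsScalarTower k K L] (S : J → Sys K) (U : Var S → L) (φ : List (ℤ × Sys K)),
  Nzl φ → ∀ g ∈ Hs k φ, algebraMap K L g ∈ Hs (kU k U) (upl L φ)

/-- the restriction inequality -/
def T_D3 : Prop := ∀ (k K L : Type) [Field k] [Field K] [Field L] [Algebra k K] [Algebra K L]
  [Algebra k L] [IsScalarTower k K L] (s : Sys K) (U : Var (fun _ : Unit => s) → L)
  (φ : List (ℤ × Sys K)), s.Nz → Nzl φ → IsGen (fun _ : Unit => s) U → AlgebraicIndependent k U →
  Module.Finite (kU k U) (Hs (kU k U) (upl L φ)) → Module.Finite k (Hs k ((-1, s) :: φ)) →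
  Module.Finite k (Hs k φ) ∧ Module.finrank k (Hs k φ) ≤
    Module.finrank (kU k U) (Hs (kU k U) (upl L φ)) + Module.finrank k (Hs k ((-1, s) :: φ))

/-- finiteness -/
def T_D4 : Prop := ∀ (k K : Type) [Field k] [CharZero k] [Field K] [Algebra k K]
  [Algebra.EssFiniteType k K] (φ : List (ℤ × Sys K)), Nzl φ → Module.Finite k (Hs k φ)

/-- growth from below -/
def T_D2 : Prop := ∀ (k K : Type) [Field k] [CharZero k] [Field K] [Algebra k K]
  [Algebra.EssFiniteType k K] (d : ℕ) (W : Sys K), Algebra.trdeg k K = d → W.Nz → Generates k W →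
  ∃ C : ℝ, ∀ m : ℕ, 1 ≤ m → (Idx (fun _ : Fin d => W) k : ℝ) * m ^ d / d.factorial - C * m ^ (d - 1)
    ≤ Module.finrank k (Hs k [((m : ℤ), W)])

/-- growth from above -/
def T_D1 : Prop := ∀ (k K : Type) [Field k] [CharZero k] [Field K] [Algebra k K]
  [Algebra.EssFiniteType k K] (d : ℕ) (W : Sys K), Algebra.trdeg k K = d → W.Nz → Generates k W →
  ∃ C : ℝ, ∀ m : ℕ, 1 ≤ m → (Module.finrank k (Hs k [((m : ℤ), W)]) : ℝ) ≤
    (Idx (fun _ : Fin d => W) k : ℝ) * m ^ d / d.factorial + C * m ^ (d - 1)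

/-- Siu's criterion on threefolds -/
def T_SIU : Prop := ∀ (k K : Type) [Field k] [CharZero k] [Field K] [Algebra k K]
  [Algebra.EssFiniteType k K] (G B : Sys K), Algebra.trdeg k K = 3 → G.Nz → B.Nz →
  Generates k G → Generates k B → 3 * Idx ![G, G, B] k < Idx ![G, G, G] k →
  ∃ m : ℕ, 1 ≤ m ∧ ∃ g ∈ Hs k [((m : ℤ), G), (-(m : ℤ), B)], g ≠ 0

/-- the Hodge index inequality on surfaces -/
def T_HOD : Prop := ∀ (k K : Type) [Field k] [CharZero k] [Field K] [Algebra k K]
  [Algebra.EssFiniteType k K] (V W : Sys K), Algebra.trdeg k K = 2 → V.Nz → W.Nz →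
  Generates k V → Generates k W → Idx ![V, V] k * Idx ![W, W] k ≤ Idx ![V, W] k ^ 2

end SC
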