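import Pool.Agent.H93.SC.Stmt

/-!
Valuations, generic sections and the index of systems in a function field (MP_f2954d_ag).
-/

namespace SC

/-- a system: a finite family of elements -/
structure Sys (K : Type) where
  r : ℕ
  s : Fin r → K

/-- image of a system under a map -/
@[reducible] def Sys.map {K L : Type} (f : K → L) (S : Sys K) : Sys L := ⟨S.r, fun i => f (S.s i)⟩

/-- a system is nonzero -/
def Sys.Nz {K : Type} [Zero K] (S : Sys K) : Prop := ∃ i, S.s i ≠ 0

/-- product of systems -/
@[reducible] def Sys.mul {K : Type} [Mul K] (S T : Sys K) : Sys K :=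
  ⟨S.r * T.r, fun i => S.s (finProdFinEquiv.symm i).1 * T.s (finProdFinEquiv.symm i).2⟩

/-- the trivial system `{1}` -/
@[reducible] def Sys.one (K : Type) [One K] : Sys K := ⟨1, fun _ => 1⟩

/-- image of a system in an extension field -/
@[reducible] def Sys.up {K : Type} [Field K] (L : Type) [Field L] [Algebra K L] (S : Sys K) : Sys L :=
  S.map (algebraMap K L)

section DV

variable (k K : Type) [Field k] [Field K] [Algebra k K]

variable {k K}

namespace DV

variable (v : DV k K)

lemma ord_one : v.ord 1 = 0 := by
  have := v.ord_base 1
  simpa using this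

lemma ord_neg_one : v.ord (-1) = 0 := by
  have := v.ord_base (-1)
  simpa using this

lemma ord_neg (x : K) : v.ord (-x) = v.ord x := by
  by_cases hx : x = 0
  · simp [hx]
  · have h := v.ord_mul (-1) x (by simp) hx
    rw [v.ord_neg_one] at h
    simpa using h

lemma ord_inv (x : K) : v.ord x⁻¹ = - v.ord x := by
  by_cases hx : x = 0
  · simp [hx, v.ord_zero]
  · have h := v.ord_mul x x⁻¹ hx (inv_ne_zero hx)
    rw [mul_inv_cancel₀ hx, v.ord_one] at h
    omega

/-- the valuation ring -/
def vs : ValuationSubring K where
  carrier := {x | 0 ≤ v.ord x}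
  mul_mem' := by
    intro a b ha hb
    by_cases h1 : a = 0
    · simp [h1, v.ord_zero]
    by_cases h2 : b = 0
    · simp [h2, v.ord_zero]
    simp only [Set.mem_ofPred_eq] at *
    rw [v.ord_mul a b h1 h2]; omega
  one_mem' := by simp [v.ord_one]
  add_mem' := by
    intro a b ha hb
    by_cases h1 : a = 0
    · simpa [h1] using hb
    by_cases h2 : b = 0
    · simpa [h2] using ha
    by_cases h3 : a + b = 0
    · simp [h3, v.ord_zero]
    simp only [Set.mem_ofPred_eq] at *
    have := v.ord_add a b h1 h2 h3
    omega
  zero_mem' := by simp [v.ord_zero]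
  neg_mem' := by
    intro a ha
    simp only [Set.mem_ofPred_eq] at *
    rw [v.ord_neg]; exact ha
  mem_or_inv_mem' := by
    intro x
    simp only [Set.mem_ofPred_eq]
    rw [v.ord_inv]
    omega

lemma mem_vs (x : K) : x ∈ v.vs ↔ 0 ≤ v.ord x := Iff.rfl

/-- `k` maps to the valuation ring -/
def baseHom : k →+* v.vs where
  toFun c := ⟨algebraMap k K c, by rw [mem_vs, v.ord_base]⟩
  map_one' := by ext; simp
  map_mul' := by intro a b; ext; simp
  map_zero' := by ext; simp
  map_add' := by intro a b; ext; simp

noncomputable instance : Algebra k v.vs := v.baseHom.toAlgebra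

/-- the residue field -/
abbrev Res : Type := IsLocalRing.ResidueField v.vs

open Classical in
/-- the reduction map, `0` outside the valuation ring -/
noncomputable def red (x : K) : v.Res :=
  if h : 0 ≤ v.ord x then IsLocalRing.residue v.vs ⟨x, h⟩ else 0

/-- a uniformizer -/
noncomputable def unif : K := v.ord_surj.choose

/-- the minimal order on a system -/
noncomputable def mo (S : Sys K) : ℤ := sInf {z | ∃ i, S.s i ≠ 0 ∧ v.ord (S.s i) = z}

/-- restriction of a system to the residue field -/
@[reducible] noncomputable def res (S : Sys K) : Sys v.Res :=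
  S.map fun x => v.red (x * v.unif ^ (- v.mo S))

/-- degree of the residue field (`0` if infinite) -/
noncomputable def deg : ℕ := Module.finrank k v.Res

end DV

end DV

section Gen

variable {K : Type} [Field K] {J : Type} (S : J → Sys K)

/-- index set of the variables -/
abbrev Var : Type := Σ j, Fin (S j).r

/-- the element of the system to which the variable belongs -/
def el (x : Var S) : K := (S x.1).s x.2

/-- `L` with elements `U` is the generic complete intersection `sum_i s_ji U_ji = 0` (all `j`) -/
structure IsGen {L : Type} [Field L] [Algebra K L] (U : Var S → L) : Prop where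
  rel : ∀ j, ∑ i, algebraMap K L ((S j).s i) * U ⟨j, i⟩ = 0
  indep : ∀ i0 : ∀ j, Fin (S j).r, (∀ j, (S j).s (i0 j) ≠ 0) →
    AlgebraicIndependent K (fun x : {x : Var S // x.2 ≠ i0 x.1} => U x.1)
  gen : IntermediateField.adjoin K (Set.range U) = ⊤

/-- the base field `k(U)` -/
noncomputable abbrev kU (k : Type) [Field k] {L : Type} [Field L] [Algebra k L] {V : Type}
    (U : V → L) : IntermediateField k L := IntermediateField.adjoin k (Set.range U)

/-- pivots: one variable with nonzero coefficient in each nonzero system -/
def Pivot (x : Var S) : Prop := ∃ h : ∃ i, (S x.1).s i ≠ 0, x.2 = h.choose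

/-- the canonical generic complete intersection -/
abbrev Gen : Type := FractionRing (MvPolynomial {x : Var S // ¬ Pivot S x} K)

/-- the free variables of the canonical generic complete intersection -/
noncomputable def genX (x : {x : Var S // ¬ Pivot S x}) : Gen S :=
  algebraMap (MvPolynomial {x : Var S // ¬ Pivot S x} K) (Gen S) (MvPolynomial.X x)

open Classical in
/-- its coordinates -/
noncomputable def genU (x : Var S) : Gen S :=
  if h : Pivot S x then
    - ∑ i : {i : Fin (S x.1).r // ¬ Pivot S ⟨x.1, i⟩},
      algebraMap K (Gen S) ((S x.1).s i.1 / (S x.1).s x.2) * genX S ⟨⟨x.1, i.1⟩, i.2⟩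
  else genX S ⟨x, h⟩

open Classical in
/-- the index (intersection number) of the systems `S j` of the field `K` over `k` -/
noncomputable def Idx (k : Type) [Field k] [Algebra k K] : ℕ :=
  if AlgebraicIndependent k (genU S) then Module.finrank (kU k (genU S)) (Gen S) else 0

end Gen

section Ext

variable {k K k' L : Type} [Field k] [Field K] [Algebra k K] [Field k'] [Field L] [Algebra k' L]
  [Algebra K L] {J : Type}

/-- `w` lies over `v` with ramification index `e` -/
def Over (v : DV k K) (w : DV k' L) (e : ℕ) : Prop :=
  0 < e ∧ ∀ x : K, w.ord (algebraMap K L x) = e * v.ord x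

/-- a ring homomorphism of residue fields compatible with the reduction maps -/
def ResCompat (v : DV k K) (w : DV k' L) (φ : v.Res →+* w.Res) : Prop :=
  ∀ x : K, 0 ≤ v.ord x → φ (v.red x) = w.red (algebraMap K L x)

/-- `w` is the Gauss extension of `v` to the generic complete intersection `L` of the `S j` -/
structure Gauss (v : DV k K) (w : DV k' L) (S : J → Sys K) (U : Var S → L) : Prop where
  ordK : ∀ x : K, w.ord (algebraMap K L x) = v.ord x
  nonneg : ∀ x, 0 ≤ w.ord (U x)
  gen : ∃ φ : v.Res →+* w.Res, ResCompat v w φ ∧
    letI : Algebra v.Res w.Res := φ.toAlgebra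
    IsGen (fun j => v.res (S j)) (fun x : Var S => w.red (U x))

end Ext

section H

variable {k K : Type} [Field k] [Field K] [Algebra k K]

/-- value at `v` of a formal integral combination of systems -/
noncomputable def DV.val (v : DV k K) (φ : List (ℤ × Sys K)) : ℤ :=
  (φ.map fun p => p.1 * v.mo p.2).sum

variable (k) in
/-- `H(φ; K/k)`: the `g` with `v(g) ≥ φ(v)` for all discrete valuations `v` of `K/k` -/
noncomputable def Hs (φ : List (ℤ × Sys K)) : Submodule k K where
  carrier := {g | ∀ v : DV k K, g = 0 ∨ v.val φ ≤ v.ord g}
  zero_mem' := fun v => Or.inl rfl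
  add_mem' := by
    intro a b ha hb v
    by_cases h3 : a + b = 0
    · exact Or.inl h3
    right
    rcases ha v with h1 | h1
    · rcases hb v with h2 | h2
      · exact absurd (by rw [h1, h2]; simp) h3
      · simpa [h1] using h2
    · rcases hb v with h2 | h2
      · simpa [h2] using h1
      · by_cases h4 : a = 0
        · simpa [h4] using h2
        by_cases h5 : b = 0
        · simpa [h5] using h1
        have := v.ord_add a b h4 h5 h3
        omega
  smul_mem' := by
    intro c a ha v
    by_cases hc : c = 0
    · left; simp [hc]
    rcases ha v with h1 | h1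
    · left; simp [h1]
    by_cases h4 : a = 0
    · left; simp [h4]
    right
    rw [Algebra.smul_def, v.ord_mul _ _ (by simpa using hc) h4, v.ord_base]
    simpa using h1

variable (k) in
/-- the system generates the field: `K = k(s_i/s_j)` -/
def Generates (S : Sys K) : Prop :=
  IntermediateField.adjoin k {z : K | ∃ i j, z = S.s i / S.s j} = ⊤

end H

end SC
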