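import Pool.Agent.H93.SC.Targets3

/-!
Extension of multiadditive functions to multilinear forms (MP_f2954d_ag).
-/

namespace SC

namespace EX

variable {P : Type}

lemma toRP_add (A B : P →₀ ℤ) : toRP (A + B) = toRP A + toRP B := by
  ext p; simp [toRP]

lemma toRP_sub (A B : P →₀ ℤ) : toRP (A - B) = toRP A - toRP B := by
  ext p; simp [toRP]

lemma toRP_zero : toRP (0 : P →₀ ℤ) = 0 := by
  ext p; simp [toRP]

lemma toRP_single (p : P) : toRP (Finsupp.single p 1) = Finsupp.single p (1 : ℝ) := by
  classical
  ext q
  simp only [toRP, Finsupp.mapRange_apply]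
  by_cases h : p = q
  · subst h; simp
  · simp [Finsupp.single_eq_of_ne (Ne.symm h)]

/-- uniqueness for values in a vector space -/
lemma unique {W : Type} [AddCommGroup W] [Module ℝ W] (n : ℕ) (G : Set (P →₀ ℤ))
    (hG : ∀ D : P →₀ ℤ, ∃ A ∈ G, ∃ B ∈ G, D = A - B)
    (μ ν : MultilinearMap ℝ (fun _ : Fin n => P →₀ ℝ) W)
    (h : ∀ H : Fin n → P →₀ ℤ, (∀ j, H j ∈ G) → μ (fun j => toRP (H j)) = ν (fun j => toRP (H j))) :
    μ = ν := by
  classical
  have key : ∀ (s : Finset (Fin n)) (H : Fin n → P →₀ ℤ), (∀ j, j ∉ s → H j ∈ G) →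
      μ (fun j => toRP (H j)) = ν (fun j => toRP (H j)) := by
    intro s
    induction s using Finset.induction_on with
    | empty => intro H hH; exact h H (fun j => hH j (by simp))
    | insert i s hi ih =>
      intro H hH
      obtain ⟨A, hA, B, hB, hD⟩ := hG (H i)
      have e : (fun j => toRP (H j)) =
          Function.update (fun j => toRP (H j)) i (toRP A - toRP B) := by
        funext j
        by_cases hj : j = i
        · subst hj; rw [Function.update_self, hD, toRP_sub]
        · rw [Function.update_of_ne hj]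
      have e2 : ∀ C : P →₀ ℤ, Function.update (fun j => toRP (H j)) i (toRP C) =
          fun j => toRP (Function.update H i C j) := by
        intro C
        funext j
        by_cases hj : j = i
        · subst hj; simp
        · rw [Function.update_of_ne hj, Function.update_of_ne hj]
      rw [e, μ.map_update_sub, ν.map_update_sub, e2, e2]
      rw [ih (Function.update H i A), ih (Function.update H i B)]
      · intro j hj
        by_cases hji : j = i
        · subst hji; simpa using hB
        · rw [Function.update_of_ne hji]; exact hH j (by simp [hji, hj])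
      · intro j hj
        by_cases hji : j = i
        · subst hji; simpa using hA
        · rw [Function.update_of_ne hji]; exact hH j (by simp [hji, hj])
  refine Module.Basis.ext_multilinear (fun _ => Finsupp.basisSingleOne) ?_
  intro v
  have := key Finset.univ (fun j => Finsupp.single (v j) 1) (by simp)
  simpa [toRP_single] using this

lemma extend (n : ℕ) (G : AddSubmonoid (P →₀ ℤ))
    (hG : ∀ D : P →₀ ℤ, ∃ A ∈ G, ∃ B ∈ G, D = A - B) :
    ∀ (W : Type) [AddCommGroup W] [Module ℝ W] (f : (Fin n → P →₀ ℤ) → W),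
    (∀ (H : Fin n → P →₀ ℤ) (i : Fin n) (A B : P →₀ ℤ), (∀ j, H j ∈ G) → A ∈ G → B ∈ G →
      f (Function.update H i (A + B)) = f (Function.update H i A) + f (Function.update H i B)) →
    ∃ μ : MultilinearMap ℝ (fun _ : Fin n => P →₀ ℝ) W,
      ∀ H : Fin n → P →₀ ℤ, (∀ j, H j ∈ G) → μ (fun j => toRP (H j)) = f H := by
  classical
  induction n with
  | zero =>
    intro W _ _ f hf
    refine ⟨MultilinearMap.constOfIsEmpty ℝ _ (f default), ?_⟩
    intro H hH
    rw [MultilinearMap.constOfIsEmpty_apply]
    simp only [Function.const_apply]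
    exact congrArg f (Subsingleton.elim _ _)
  | succ n ih =>
    intro W _ _ f hf
    have h1 : ∀ A : P →₀ ℤ, ∃ μ : MultilinearMap ℝ (fun _ : Fin n => P →₀ ℝ) W, A ∈ G →
        ∀ H : Fin n → P →₀ ℤ, (∀ j, H j ∈ G) → μ (fun j => toRP (H j)) = f (Fin.cons A H) := by
      intro A
      by_cases hA : A ∈ G
      · obtain ⟨μ, hμ⟩ := ih W (fun H => f (Fin.cons A H)) (by
          intro H i B C hH hB hC
          rw [Fin.cons_update, Fin.cons_update, Fin.cons_update]
          refine hf _ _ _ _ ?_ hB hC
          intro j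
          refine Fin.cases ?_ ?_ j
          · simpa using hA
          · intro j; simpa using hH j)
        exact ⟨μ, fun _ => hμ⟩
      · exact ⟨0, fun h => absurd h hA⟩
    choose M hM using h1
    have hadd : ∀ A B : P →₀ ℤ, A ∈ G → B ∈ G → M (A + B) = M A + M B := by
      intro A B hA hB
      refine unique n (G : Set (P →₀ ℤ)) hG _ _ ?_
      intro H hH
      rw [add_apply, hM _ (G.add_mem hA hB) H hH, hM _ hA H hH, hM _ hB H hH]
      have := hf (Fin.cons A H) 0 A B (by
        intro j
        refine Fin.cases ?_ ?_ j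
        · simpa using hA
        · intro j; simpa using hH j) hA hB
      rwa [Fin.update_cons_zero, Fin.update_cons_zero, Fin.update_cons_zero] at this
    choose Ap hAp Bp hBp hD using hG
    -- the additive extension
    have hwd : ∀ D A B : P →₀ ℤ, A ∈ G → B ∈ G → D = A - B → M (Ap D) - M (Bp D) = M A - M B := by
      intro D A B hA hB h
      have e : Ap D + B = A + Bp D := by
        have := hD D
        rw [h] at this
        have h2 : A - B + B = Ap (A - B) - Bp (A - B) + B := by rw [← this]
        rw [h]
        have h3 : A = Ap (A - B) - Bp (A - B) + B := by simpa using h2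
        calc Ap (A - B) + B = (Ap (A - B) - Bp (A - B) + B) + Bp (A - B) := by abel
          _ = A + Bp (A - B) := by rw [← h3]
      have e2 : M (Ap D) + M B = M A + M (Bp D) := by
        rw [← hadd _ _ (hAp D) hB, ← hadd _ _ hA (hBp D), e]
      rw [sub_eq_sub_iff_add_eq_add, e2]
    let Ψ : (P →₀ ℤ) →+ MultilinearMap ℝ (fun _ : Fin n => P →₀ ℝ) W :=
      AddMonoidHom.mk' (fun D => M (Ap D) - M (Bp D)) (by
        intro D E
        rw [hwd (D + E) (Ap D + Ap E) (Bp D + Bp E) (G.add_mem (hAp D) (hAp E))
          (G.add_mem (hBp D) (hBp E)) (by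
            nth_rewrite 1 [hD D, hD E]; abel), hadd _ _ (hAp D) (hAp E), hadd _ _ (hBp D) (hBp E)]
        abel)
    let F : (P →₀ ℝ) →ₗ[ℝ] MultilinearMap ℝ (fun _ : Fin n => P →₀ ℝ) W :=
      Finsupp.linearCombination ℝ (fun p => Ψ (Finsupp.single p 1))
    let T : (P →₀ ℤ) →+ (P →₀ ℝ) := AddMonoidHom.mk' toRP toRP_add
    have hFT : F.toAddMonoidHom.comp T = Ψ := by
      refine Finsupp.addHom_ext' ?_
      intro p
      refine AddMonoidHom.ext_int ?_
      change F (toRP (Finsupp.single p 1)) = Ψ (Finsupp.single p 1)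
      rw [toRP_single]
      simp [F]
    have hFA : ∀ A ∈ G, F (toRP A) = M A := by
      intro A hA
      have : F (toRP A) = Ψ A := DFunLike.congr_fun hFT A
      rw [this]
      change M (Ap A) - M (Bp A) = M A
      rw [hwd A (A + A) A (G.add_mem hA hA) hA (by abel), hadd _ _ hA hA]
      abel
    refine ⟨LinearMap.uncurryLeft F, ?_⟩
    intro H hH
    rw [LinearMap.uncurryLeft_apply]
    have e : (F (toRP (H 0))) (Fin.tail fun j => toRP (H j)) =
        (M (H 0)) (fun j => toRP (Fin.tail H j)) := by
      rw [hFA _ (hH 0)]; rfl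
    rw [e, hM _ (hH 0) (Fin.tail H) (fun j => hH j.succ), Fin.cons_self_tail]

end EX

theorem exi : T_EXI := by
  intro P n G hG f hf
  exact EX.extend n G hG ℝ f hf

theorem exu : T_EXU := by
  intro P n G hG μ ν h
  exact EX.unique n (G : Set (P →₀ ℤ)) hG μ ν h

end SC
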