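import Pool.Agent.H93.SC.Uniq

/-!
Existence of the intersection form (MP_f2954d_ag).
-/

namespace SC

section

variable {K : Type} [Field K] [Algebra ℂ K] {N n : ℕ} {w : Fin (N + 1) → K}

lemma GenSys.nz (hw : IsSmoothProj w n) {D : DivZ w} {S : Sys K} (h : GenSys D S) : S.Nz := by
  obtain ⟨i, hi⟩ := hw.nonzero
  obtain ⟨p, hp⟩ := Ideal.exists_maximal (chart w i)
  obtain ⟨j, hj⟩ := h.2 i hi p hp
  exact ⟨j, hj.1⟩

lemma gg_zero : GloballyGenerated (0 : DivZ w) := by
  intro i hi p hp
  refine ⟨1, ?_, one_ne_zero, ?_⟩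
  · intro v; right; simp [v.1.ord_one]
  · intro v _; simp [v.1.ord_one]

lemma gg_add (hJ : T_XJ) (hP : T_XP) (hw : IsSmoothProj w n) {D E : DivZ w}
    (hD : GloballyGenerated D) (hE : GloballyGenerated E) : GloballyGenerated (D + E) := by
  obtain ⟨S, hS⟩ := (hJ K N n w hw D).1 hD
  obtain ⟨T, hT⟩ := (hJ K N n w hw E).1 hE
  exact (hJ K N n w hw _).2 ⟨_, hP K N w D E S T hS hT⟩

/-- the monoid of globally generated divisors -/
def ggMonoid (hJ : T_XJ) (hP : T_XP) (hw : IsSmoothProj w n) : AddSubmonoid (DivZ w) where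
  carrier := {D | GloballyGenerated D}
  zero_mem' := gg_zero
  add_mem' := fun h1 h2 => gg_add hJ hP hw h1 h2

/-- additivity in every argument, for an arbitrary decidability instance -/
theorem ia_inst (hIA : T_IA) {k K J : Type} [Field k] [CharZero k] [Field K] [Algebra k K]
    [Algebra.EssFiniteType k K] [Fintype J] [hd : DecidableEq J] (S : J → Sys K) (j : J)
    (s t : Sys K) (h1 : ∀ j, (S j).Nz) (h2 : s.Nz) (h3 : t.Nz)
    (h4 : Algebra.trdeg k K = (Fintype.card J : ℕ)) :
    Idx (Function.update S j (s.mul t)) k =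
      Idx (Function.update S j s) k + Idx (Function.update S j t) k := by
  have e : hd = fun a b => Classical.propDecidable (a = b) := Subsingleton.elim _ _
  rw [e]
  exact hIA k K J S j s t h1 h2 h3 h4

open Classical in
/-- a generating system -/
noncomputable def sysOf (D : DivZ w) : Sys K :=
  if h : ∃ S, GenSys D S then h.choose else Sys.one K

lemma sysOf_gen (hJ : T_XJ) (hw : IsSmoothProj w n) {D : DivZ w} (h : GloballyGenerated D) :
    GenSys D (sysOf D) := by
  have h' : ∃ S, GenSys D S := (hJ K N n w hw D).1 h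
  rw [sysOf, dif_pos h']
  exact h'.choose_spec

lemma sections_mul {A B : DivZ w} {s f : K} (hs : s ∈ sections A) (hf : f ∈ sections B) :
    s * f ∈ sections (A + B) := by
  intro v
  by_cases h1 : s = 0
  · left; simp [h1]
  by_cases h2 : f = 0
  · left; simp [h2]
  right
  have a := (hs v).resolve_left h1
  have b := (hf v).resolve_left h2
  rw [v.1.ord_mul _ _ h1 h2, Finsupp.add_apply]
  omega

lemma finrank_mul {A B C : DivZ w} (hC : C = A + B) {s : K} (hs : s ∈ sections A) (h0 : s ≠ 0)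
    (hfin : Module.Finite ℂ (sections C)) :
    Module.Finite ℂ (sections B) ∧
    Module.finrank ℂ (sections B) ≤ Module.finrank ℂ (sections C) := by
  subst hC
  let φ : sections B →ₗ[ℂ] sections (A + B) :=
    { toFun := fun f => ⟨s * f, sections_mul hs f.2⟩
      map_add' := by intro f g; ext; simp [mul_add]
      map_smul' := by intro c f; ext; simp }
  have hφ : Function.Injective φ := by
    intro f g h
    have : s * (f : K) = s * (g : K) := congrArg Subtype.val h
    exact Subtype.ext (mul_left_cancel₀ h0 this)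
  exact ⟨Module.Finite.of_injective φ hφ, LinearMap.finrank_le_finrank_of_injective hφ⟩

lemma gg_section (hw : IsSmoothProj w n) {D : DivZ w} (h : GloballyGenerated D) :
    ∃ s ∈ sections D, s ≠ 0 := by
  obtain ⟨i, hi⟩ := hw.nonzero
  obtain ⟨p, hp⟩ := Ideal.exists_maximal (chart w i)
  obtain ⟨f, hf, h0, -⟩ := h i hi p hp
  exact ⟨f, hf, h0⟩

end

section Growth

variable {K : Type} [Field K] [Algebra ℂ K] {N n : ℕ} {w : Fin (N + 1) → K}

lemma growth (hK : T_XK) (hD1 : T_D1) (hD2 : T_D2) (hI : T_XI) (hw : IsSmoothProj w n)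
    (hn : 1 ≤ n) {E : DivZ w} {T : Sys K} (hT : GenSys E T) (hg : Generates ℂ T) :
    Filter.Tendsto (fun m : ℕ => (Module.finrank ℂ (sections (m • E)) : ℝ) / (m : ℝ) ^ n)
      Filter.atTop (nhds ((Idx (fun _ : Fin n => T) ℂ : ℝ) / n.factorial)) := by
  have : Algebra.EssFiniteType ℂ K := hI K N n w hw
  obtain ⟨C1, h1⟩ := hD1 ℂ K n T hw.dim (hT.nz hw) hg
  obtain ⟨C2, h2⟩ := hD2 ℂ K n T hw.dim (hT.nz hw) hg
  set I : ℝ := (Idx (fun _ : Fin n => T) ℂ : ℝ) with hIdef
  have lim : ∀ C : ℝ, Filter.Tendsto (fun m : ℕ => I / n.factorial + C / (m : ℝ)) Filter.atTop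
      (nhds (I / n.factorial)) := by
    intro C
    have : Filter.Tendsto (fun m : ℕ => C / (m : ℝ)) Filter.atTop (nhds 0) :=
      tendsto_const_div_atTop_nhds_zero_nat C
    simpa using tendsto_const_nhds.add this
  refine tendsto_of_tendsto_of_tendsto_of_le_of_le' (lim (-C2)) (lim C1) ?_ ?_
  · filter_upwards [Filter.eventually_ge_atTop 1] with m hm
    have hm' : (0 : ℝ) < m := by exact_mod_cast hm
    have := h2 m hm
    rw [← hK K N n w hw E T hT m] at this
    rw [le_div_iff₀ (by positivity)]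
    refine le_trans (le_of_eq ?_) this
    obtain ⟨k, rfl⟩ : ∃ k, n = k + 1 := ⟨n - 1, by omega⟩
    field_simp
    simp only [Nat.add_sub_cancel]
    ring
  · filter_upwards [Filter.eventually_ge_atTop 1] with m hm
    have hm' : (0 : ℝ) < m := by exact_mod_cast hm
    have := h1 m hm
    rw [← hK K N n w hw E T hT m] at this
    rw [div_le_iff₀ (by positivity)]
    refine le_trans this (le_of_eq ?_)
    obtain ⟨k, rfl⟩ : ∃ k, n = k + 1 := ⟨n - 1, by omega⟩
    field_simp
    simp only [Nat.add_sub_cancel]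
    ring

end Growth

theorem exists_form_idx (hEXI : T_EXI) (hEXU : T_EXU) (hSQZ : T_SQZ) (hQ : T_XQ) (hO : T_XO)
    (hN : T_XN) (hJ : T_XJ) (hP : T_XP) (hL : T_XL2) (hK : T_XK) (hR1 : T_XR1) (hI : T_XI)
    (hIR : T_IR) (hIA : T_IA) (hG2r : T_G2r) (hD1 : T_D1) (hD2 : T_D2) (hD4 : T_D4)
    {K : Type} [Field K] [Algebra ℂ K] {N n : ℕ} {w : Fin (N + 1) → K} (hn : 1 ≤ n)
    (hw : IsSmoothProj w n) :
    ∃ μ : MultilinearMap ℝ (fun _ : Fin n => DivR w) ℝ, IsIntersectionForm μ ∧
      ∀ (H : Fin n → DivZ w) (S : Fin n → Sys K), (∀ j, GenSys (H j) (S j)) →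
        μ (fun j => toR (H j)) = (Idx S ℂ : ℝ) := by
  classical
  have : Algebra.EssFiniteType ℂ K := hI K N n w hw
  obtain ⟨i₀, hi⟩ := hw.nonzero
  obtain ⟨⟨H₀, h0⟩, -⟩ := hN K N n w hw i₀ hi
  have hq := hQ K N n w hw i₀ H₀ h0
  have hO' : Ample H₀ := hO K N n w hw i₀ H₀ h0
  have hgen : ∀ {D : DivZ w}, VAmp H₀ D → ∃ T, Nice i₀ H₀ D T := fun h => (hq.2.2.2.1 _).1 h
  have hvgg : ∀ {D : DivZ w}, VAmp H₀ D → GloballyGenerated D := by
    intro D h
    obtain ⟨T, hT⟩ := hgen h
    exact (hJ K N n w hw D).2 ⟨T, (hq.2.2.2.2.2 D T hT).1⟩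
  set G := ggMonoid hJ hP hw with hG
  have hGd : ∀ D : DivZ w, ∃ A ∈ G, ∃ B ∈ G, D = A - B := by
    intro D
    obtain ⟨A, hA, B, hB, h⟩ := diff_vamp hQ hO hw h0 D
    exact ⟨A, hvgg hA, B, hvgg hB, h⟩
  have htr : Algebra.trdeg ℂ K = (Fintype.card (Fin n) : ℕ) := by
    rw [Fintype.card_fin]; exact hw.dim
  have hnz : ∀ {D : DivZ w}, GloballyGenerated D → (sysOf D).Nz := fun h =>
    (sysOf_gen hJ hw h).nz hw
  let f : (Fin n → DivZ w) → ℝ := fun H => (Idx (fun j => sysOf (H j)) ℂ : ℝ)
  obtain ⟨μ, hμ⟩ := hEXI (PDiv w) n G hGd f (by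
    intro H i A B hH hA hB
    have e : ∀ X : DivZ w, (fun j => sysOf (Function.update H i X j)) =
        Function.update (fun j => sysOf (H j)) i (sysOf X) := by
      intro X
      funext j
      by_cases hj : j = i
      · subst hj; simp
      · rw [Function.update_of_ne hj, Function.update_of_ne hj]
    have hAB : GloballyGenerated (A + B) := gg_add hJ hP hw hA hB
    have key : Idx (Function.update (fun j => sysOf (H j)) i (sysOf (A + B))) ℂ =
        Idx (Function.update (fun j => sysOf (H j)) i ((sysOf A).mul (sysOf B))) ℂ := by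
      refine hIR ℂ K (Fin n) _ _ ?_ ?_ htr ?_
      · intro j
        by_cases hj : j = i
        · subst hj; rw [Function.update_self]; exact hnz hAB
        · rw [Function.update_of_ne hj]; exact hnz (hH j)
      · intro j
        by_cases hj : j = i
        · subst hj; rw [Function.update_self]; exact Sys.mul_nz (hnz hA) (hnz hB)
        · rw [Function.update_of_ne hj]; exact hnz (hH j)
      · intro j v
        by_cases hj : j = i
        · subst hj
          rw [Function.update_self, Function.update_self, v.mo_mul (hnz hA) (hnz hB)]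
          exact (hL K N n w hw A B _ _ _ (sysOf_gen hJ hw hA) (sysOf_gen hJ hw hB)
            (sysOf_gen hJ hw hAB)).1 v
        · rw [Function.update_of_ne hj, Function.update_of_ne hj]
    simp only [f]
    rw [e, e, e, key]
    have : (Idx (Function.update (fun j => sysOf (H j)) i ((sysOf A).mul (sysOf B))) ℂ) =
        Idx (Function.update (fun j => sysOf (H j)) i (sysOf A)) ℂ +
        Idx (Function.update (fun j => sysOf (H j)) i (sysOf B)) ℂ := by
      exact ia_inst (J := Fin n) hIA (fun j => sysOf (H j)) i (sysOf A) (sysOf B)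
        (fun j => hnz (hH j)) (hnz hA) (hnz hB) htr
    rw [this]
    push_cast
    rfl)
  have hmo : ∀ {D : DivZ w} {S S' : Sys K}, GenSys D S → GenSys D S' → ∀ v : DV ℂ K,
      v.mo S = v.mo S' := by
    intro D S S' hS hS' v
    have a := (hL K N n w hw D 0 _ _ _ hS (sysOf_gen hJ hw gg_zero)
      (by rw [add_zero]; exact hS)).1 v
    have b := (hL K N n w hw D 0 _ _ _ hS (sysOf_gen hJ hw gg_zero)
      (by rw [add_zero]; exact hS')).1 v
    rw [b, ← a]
  refine ⟨μ, ⟨?_, ?_⟩, ?_⟩
  · -- symmetry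
    intro σ D
    have : μ.domDomCongr σ = μ := by
      refine hEXU (PDiv w) n G hGd _ _ ?_
      intro H hH
      rw [MultilinearMap.domDomCongr_apply]
      rw [hμ (fun i => H (σ i)) (fun j => hH (σ j)), hμ H hH]
      simp only [f]
      have := hG2r ℂ K (Fin n) (Fin n) (fun j => sysOf (H j)) σ (fun j => hnz (hH j))
      exact_mod_cast this
    calc μ (fun i => D (σ i)) = μ.domDomCongr σ D := by rw [MultilinearMap.domDomCongr_apply]
      _ = μ D := by rw [this]
  · intro H hH
    obtain ⟨m₀, hm₀⟩ := hq.2.2.1 H hH 0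
    set M := max m₀ 1 with hM
    have hM1 : 1 ≤ M := le_max_right _ _
    have hMv : VAmp H₀ (M • H) := by
      have := hm₀ M (le_max_left _ _)
      rwa [zero_add] at this
    obtain ⟨T, hT⟩ := hgen hMv
    have hTg := hq.2.2.2.2.2 _ T hT
    have hgr := growth hK hD1 hD2 hI hw hn hTg.1 (hR1 K N n w hw i₀ H₀ _ T h0 hT)
    set I : ℝ := (Idx (fun _ : Fin n => T) ℂ : ℝ) with hIdef
    -- all spaces of sections are finite dimensional
    have hfin : ∀ D : DivZ w, Module.Finite ℂ (sections D) := by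
      intro D
      obtain ⟨A, hA, B, hB, hD⟩ := hGd D
      obtain ⟨s, hs, hs0⟩ := gg_section hw hB
      have hAf : Module.Finite ℂ (sections A) := by
        have := hK K N n w hw A (sysOf A) (sysOf_gen hJ hw hA) 1
        rw [one_smul] at this
        rw [this]
        refine hD4 ℂ K _ ?_
        intro p hp
        simp only [List.mem_singleton] at hp
        subst hp
        exact hnz hA
      exact (finrank_mul (by rw [hD]; abel) hs hs0 hAf).1
    obtain ⟨m₁, hm₁⟩ := hH 0
    have hsec : ∀ m, m₁ ≤ m → ∃ s ∈ sections (m • H), s ≠ 0 := by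
      intro m hm
      have := hm₁ m hm
      rw [zero_add] at this
      exact gg_section hw this
    have hlim := hSQZ n (fun m => Module.finrank ℂ (sections (m • H))) M (I / n.factorial) hn hM1
      (by
        have e : ∀ m : ℕ, sections (m • (M • H)) = sections ((M * m) • H) := by
          intro m; rw [smul_smul, mul_comm]
        refine hgr.congr (fun m => ?_)
        rw [e m]) (by
        refine ⟨m₁ + 1, ?_⟩
        intro m hm r hr
        have hbig : m₁ + M ≤ M * (m₁ + 1) := by nlinarith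
        constructor
        · obtain ⟨s, hs, hs0⟩ := hsec (M * (m₁ + 1) + r) (by omega)
          refine (finrank_mul ?_ hs hs0 (hfin _)).2
          rw [← add_smul]
          congr 1
          have : M * (m - (m₁ + 1)) + M * (m₁ + 1) = M * m := by
            rw [← mul_add]; congr 1; omega
          omega
        · obtain ⟨s, hs, hs0⟩ := hsec (M * (m₁ + 1) - r) (by omega)
          refine (finrank_mul ?_ hs hs0 (hfin _)).2
          rw [← add_smul]
          congr 1
          rw [mul_add]
          omega)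
    -- the value of the form
    have hval : μ (fun _ => toR H) = I / (M : ℝ) ^ n := by
      have hgM : GloballyGenerated (M • H) := hvgg hMv
      have h1 : μ (fun _ => toRP (M • H)) = I := by
        rw [hμ (fun _ => M • H) (fun _ => hgM)]
        simp only [f]
        rw [hIdef]
        have : Idx (fun _ : Fin n => sysOf (M • H)) ℂ = Idx (fun _ : Fin n => T) ℂ := by
          refine hIR ℂ K (Fin n) _ _ (fun _ => hnz hgM) (fun _ => hTg.2) htr ?_
          intro j v
          exact hmo (sysOf_gen hJ hw hgM) hTg.1 v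
        rw [this]
      have h2 : (fun _ : Fin n => toRP (M • H)) = fun _ : Fin n => (M : ℝ) • toR H := by
        funext _
        ext v
        simp [toRP, toR]
      rw [h2, MultilinearMap.map_smul_univ] at h1
      have hMr : (0 : ℝ) < (M : ℝ) ^ n := by positivity
      rw [Finset.prod_const, Finset.card_univ, Fintype.card_fin, smul_eq_mul] at h1
      rw [eq_div_iff hMr.ne', ← h1]
      ring
    have hfac : (n.factorial : ℝ) ≠ 0 := by exact_mod_cast n.factorial_ne_zero
    have h3 := hlim.const_mul (n.factorial : ℝ)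
    rw [hval]
    have e1 : (n.factorial : ℝ) * (I / n.factorial / (M : ℝ) ^ n) = I / (M : ℝ) ^ n := by
      field_simp
    rw [e1] at h3
    refine h3.congr ?_
    intro m
    ring
  · intro H S hS
    have hH : ∀ j, GloballyGenerated (H j) := fun j => (hJ K N n w hw _).2 ⟨_, hS j⟩
    have h1 := hμ H hH
    simp only [f] at h1
    have h2 : Idx (fun j => sysOf (H j)) ℂ = Idx S ℂ :=
      hIR ℂ K (Fin n) _ _ (fun j => hnz (hH j)) (fun j => (hS j).nz hw) htr
        (fun j v => hmo (sysOf_gen hJ hw (hH j)) (hS j) v)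
    rw [h2] at h1
    exact h1

theorem exists_form (hEXI : T_EXI) (hEXU : T_EXU) (hSQZ : T_SQZ) (hQ : T_XQ) (hO : T_XO)
    (hN : T_XN) (hJ : T_XJ) (hP : T_XP) (hL : T_XL2) (hK : T_XK) (hR1 : T_XR1) (hI : T_XI)
    (hIR : T_IR) (hIA : T_IA) (hG2r : T_G2r) (hD1 : T_D1) (hD2 : T_D2) (hD4 : T_D4)
    {K : Type} [Field K] [Algebra ℂ K] {N n : ℕ} {w : Fin (N + 1) → K} (hn : 1 ≤ n)
    (hw : IsSmoothProj w n) :
    ∃ μ : MultilinearMap ℝ (fun _ : Fin n => DivR w) ℝ, IsIntersectionForm μ := by
  obtain ⟨μ, h, -⟩ := exists_form_idx hEXI hEXU hSQZ hQ hO hN hJ hP hL hK hR1 hI hIR hIA hG2r hD1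
    hD2 hD4 hn hw
  exact ⟨μ, h⟩

/-- intersection numbers of globally generated divisors are indices -/
theorem form_eq_idx (hPOL : T_POL) (hEXI : T_EXI) (hEXU : T_EXU) (hSQZ : T_SQZ) (hQ : T_XQ)
    (hO : T_XO) (hN : T_XN) (hJ : T_XJ) (hP : T_XP) (hL : T_XL2) (hK : T_XK) (hR1 : T_XR1)
    (hI : T_XI) (hIR : T_IR) (hIA : T_IA) (hG2r : T_G2r) (hD1 : T_D1) (hD2 : T_D2) (hD4 : T_D4)
    {K : Type} [Field K] [Algebra ℂ K] {N n : ℕ} {w : Fin (N + 1) → K} (hn : 1 ≤ n)
    (hw : IsSmoothProj w n) (μ : MultilinearMap ℝ (fun _ : Fin n => DivR w) ℝ)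
    (hμ : IsIntersectionForm μ) (H : Fin n → DivZ w) (S : Fin n → Sys K)
    (hS : ∀ j, GenSys (H j) (S j)) : μ (fun j => toR (H j)) = (Idx S ℂ : ℝ) := by
  obtain ⟨ν, h, h2⟩ := exists_form_idx hEXI hEXU hSQZ hQ hO hN hJ hP hL hK hR1 hI hIR hIA hG2r hD1
    hD2 hD4 hn hw
  rw [unique_form hPOL hQ hO hN hw μ ν hμ h]
  exact h2 H S hS

end SC
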