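import Pool.Agent.H93.SC.EX
import Pool.Agent.H15.SC.TargetsX

/-!
Uniqueness of the intersection form (MP_f2954d_ag).
-/

namespace SC

lemma toR_eq_toRP {K : Type} [Field K] [Algebra ℂ K] {N : ℕ} {w : Fin (N + 1) → K} (D : DivZ w) :
    toR D = toRP D := rfl

/-- every divisor is a difference of two very ample ones -/
lemma diff_vamp (hQ : T_XQ) (hO : T_XO) {K : Type} [Field K] [Algebra ℂ K] {N n : ℕ}
    {w : Fin (N + 1) → K} (hw : IsSmoothProj w n) {i₀ : Fin (N + 1)} {H₀ : DivZ w}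
    (h0 : IsHyp i₀ H₀) (D : DivZ w) :
    ∃ A, VAmp H₀ A ∧ ∃ B, VAmp H₀ B ∧ D = A - B := by
  have hq := hQ K N n w hw i₀ H₀ h0
  have ho : Ample H₀ := hO K N n w hw i₀ H₀ h0
  obtain ⟨m₁, h1⟩ := hq.2.2.1 H₀ ho D
  obtain ⟨m₂, h2⟩ := hq.2.2.1 H₀ ho 0
  refine ⟨D + (max m₁ m₂) • H₀, h1 _ (le_max_left _ _), 0 + (max m₁ m₂) • H₀,
    h2 _ (le_max_right _ _), by abel⟩

theorem unique_form (hPOL : T_POL) (hQ : T_XQ) (hO : T_XO) (hN : T_XN) {K : Type} [Field K]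
    [Algebra ℂ K] {N n : ℕ} {w : Fin (N + 1) → K} (hw : IsSmoothProj w n)
    (μ ν : MultilinearMap ℝ (fun _ : Fin n => DivR w) ℝ) (hμ : IsIntersectionForm μ)
    (hν : IsIntersectionForm ν) : μ = ν := by
  obtain ⟨i₀, hi⟩ := hw.nonzero
  obtain ⟨⟨H₀, h0⟩, -⟩ := hN K N n w hw i₀ hi
  have hq := hQ K N n w hw i₀ H₀ h0
  refine hPOL (PDiv w) n {D : DivZ w | VAmp H₀ D} (fun A hA B hB => hq.1 A B hA hB) ?_ μ ν hμ.1 hν.1
    ?_
  · intro D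
    exact diff_vamp hQ hO hw h0 D
  · intro H hH
    have ha : Ample H := hq.2.1 H hH
    exact tendsto_nhds_unique (hμ.2 H ha) (hν.2 H ha)

end SC
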