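import Pool.Agent.H15.SC.All2
import Pool.Agent.H93.SC.Exist
import Pool.Agent.H93.SC.Uniq
import Pool.Agent.H89.SC2.POL
import Pool.Agent.H89.SC2.SQZ

/-!
MP_f2954d_ag: existence and uniqueness of the intersection form, and the kernel theorem.
-/

namespace SC

open Pool.Agent.H19.SCD

/-- the intersection form exists and is unique -/
theorem exists_unique_form {K : Type} [Field K] [Algebra ℂ K] {N n : ℕ} {w : Fin (N + 1) → K}
    (hn : 1 ≤ n) (hw : IsSmoothProj w n) :
    ∃! μ : MultilinearMap ℝ (fun _ : Fin n => DivR w) ℝ, IsIntersectionForm μ := by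
  obtain ⟨μ, hμ⟩ := exists_form exi exu Pool.Agent.H89.SC2.sqz aXQ aXO aXN aXJ aXP aXL2 aXK aXR1
    aXI aIR aIA tG2r aD1 aD2 aD4 hn hw
  exact ⟨μ, hμ, fun ν hν =>
    unique_form (Pool.Agent.H89.SC2.pol exu) aXQ aXO aXN hw ν μ hν hμ⟩

/-- the final statement from the kernel theorem -/
theorem final_of (h : KernelTheorem) : ∀ (K : Type) [Field K] [Algebra ℂ K] (N m : ℕ)
    (w : Fin (N + 1) → K), 1 ≤ m → IsSmoothProj w (m + 2) →
    (∃! μ : MultilinearMap ℝ (fun _ : Fin (m + 2) => DivR w) ℝ, IsIntersectionForm μ) ∧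
    ∀ μ : MultilinearMap ℝ (fun _ : Fin (m + 2) => DivR w) ℝ, IsIntersectionForm μ →
    ∀ L : Fin m → DivR w, (∀ i, NefClass μ (L i)) → Supercritical μ L →
    ∀ η : DivR w, InKernel μ L η ↔
      ∃ E : DivR w, (∀ D ∈ E.support, InKernel μ L (Finsupp.single D 1)) ∧ NumTrivial μ (η - E) :=
  fun K _ _ N m w hm hw => ⟨exists_unique_form (by omega) hw, fun μ hμ => h K N m w hm hw μ hμ⟩

end SC
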