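import Mathlib

/-!
Smooth projective varieties over `ℂ` through their function fields, prime divisors, intersection
numbers, nef classes and supercritical collections (MP_f2954d_ag).
-/

namespace SC

/-- normalised discrete valuations of a field `K`, trivial on the subfield `k`
(`ord 0 = 0` is a junk value) -/
@[ext] structure DV (k K : Type) [Field k] [Field K] [Algebra k K] where
  ord : K → ℤ
  ord_zero : ord 0 = 0
  ord_mul : ∀ x y, x ≠ 0 → y ≠ 0 → ord (x * y) = ord x + ord y
  ord_add : ∀ x y, x ≠ 0 → y ≠ 0 → x + y ≠ 0 → min (ord x) (ord y) ≤ ord (x + y)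
  ord_base : ∀ c : k, ord (algebraMap k K c) = 0
  ord_surj : ∃ x, x ≠ 0 ∧ ord x = 1

section Variety

variable {K : Type} [Field K] [Algebra ℂ K] {N : ℕ} (w : Fin (N + 1) → K)

/-- A projective variety `X` in projective `N`-space is given by its function field `K` and the
homogeneous coordinates `w 0, …, w N` in `K` of its generic point (up to a common factor). This is
the coordinate ring `ℂ[w 0 / w i, …, w N / w i]` of the affine chart where the `i`-th coordinate
does not vanish. -/
def chart (i : Fin (N + 1)) : Subalgebra ℂ K := Algebra.adjoin ℂ (Set.range fun j => w j / w i)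

/-- `w` defines a smooth projective variety of dimension `n` with function field `K`:
the charts are smooth over `ℂ` and have fraction field `K`. -/
structure IsSmoothProj (n : ℕ) : Prop where
  nonzero : ∃ i, w i ≠ 0
  functionField : ∀ i, w i ≠ 0 → IntermediateField.adjoin ℂ (chart w i : Set K) = ⊤
  dim : Algebra.trdeg ℂ K = n
  smooth : ∀ i, w i ≠ 0 → Algebra.Smooth ℂ (chart w i)

/-- The discrete valuations given by the prime divisors of `X`: the valuation ring is the
localisation of a chart at a (height one) prime ideal. -/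
def IsPrimeDivisor (v : DV ℂ K) : Prop :=
  ∃ i, w i ≠ 0 ∧ (∀ a ∈ chart w i, 0 ≤ v.ord a) ∧
    ∀ x : K, 0 ≤ v.ord x → ∃ a ∈ chart w i, ∃ b ∈ chart w i, b ≠ 0 ∧ v.ord b = 0 ∧ x = a / b

/-- prime divisors of `X` -/
abbrev PDiv : Type := {v : DV ℂ K // IsPrimeDivisor w v}

/-- divisors -/
abbrev DivZ : Type := PDiv w →₀ ℤ

/-- real divisors -/
abbrev DivR : Type := PDiv w →₀ ℝ

variable {w}

/-- a divisor as a real divisor -/
noncomputable def toR (D : DivZ w) : DivR w := D.mapRange (fun z : ℤ => (z : ℝ)) (by simp)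

/-- the space of sections `H⁰(X, O(D)) = {f : div f + D ≥ 0}` -/
def sections (D : DivZ w) : Submodule ℂ K where
  carrier := {f | ∀ v : PDiv w, f = 0 ∨ 0 ≤ v.1.ord f + D v}
  zero_mem' := fun v => Or.inl rfl
  add_mem' := by
    intro a b ha hb v
    by_cases h3 : a + b = 0
    · exact Or.inl h3
    right
    rcases ha v with h1 | h1
    · rcases hb v with h2 | h2
      · exact absurd (by rw [h1, h2]; simp) h3
      · simpa [h1] using h2
    · rcases hb v with h2 | h2
      · simpa [h2] using h1
      · by_cases h4 : a = 0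
        · simpa [h4] using h2
        by_cases h5 : b = 0
        · simpa [h5] using h1
        have := v.1.ord_add a b h4 h5 h3
        omega
  smul_mem' := by
    intro c a ha v
    by_cases hc : c = 0
    · left; simp [hc]
    rcases ha v with h1 | h1
    · left; simp [h1]
    by_cases h4 : a = 0
    · left; simp [h4]
    right
    rw [Algebra.smul_def, v.1.ord_mul _ _ (by simpa using hc) h4, v.1.ord_base]
    simpa using h1

/-- the prime divisor `v` passes through the closed point `p` of the `i`-th chart -/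
def Through (v : PDiv w) {i : Fin (N + 1)} (p : Ideal (chart w i)) : Prop :=
  (∀ a ∈ chart w i, 0 ≤ v.1.ord a) ∧ ∀ a : chart w i, 0 < v.1.ord a → a ∈ p

/-- `O(D)` is globally generated: at every closed point there is a section whose divisor does not
pass through the point -/
def GloballyGenerated (D : DivZ w) : Prop :=
  ∀ i, w i ≠ 0 → ∀ p : Ideal (chart w i), p.IsMaximal →
    ∃ f ∈ sections D, f ≠ 0 ∧ ∀ v : PDiv w, Through v p → v.1.ord f + D v = 0

/-- ample divisors (Serre's criterion) -/
def Ample (H : DivZ w) : Prop :=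
  ∀ D : DivZ w, ∃ m₀ : ℕ, ∀ m : ℕ, m₀ ≤ m → GloballyGenerated (D + m • H)

variable {n : ℕ}

/-- The intersection form on real divisors of a variety of dimension `n`: the symmetric
`n`-linear form with `(H^n) = lim n! h⁰(X, O(mH)) / m^n` for ample `H`. -/
def IsIntersectionForm (μ : MultilinearMap ℝ (fun _ : Fin n => DivR w) ℝ) : Prop :=
  (∀ (σ : Equiv.Perm (Fin n)) (D : Fin n → DivR w), μ (fun i => D (σ i)) = μ D) ∧
  ∀ H : DivZ w, Ample H →
    Filter.Tendsto
      (fun m : ℕ => (n.factorial : ℝ) * Module.finrank ℂ (sections (m • H)) / (m : ℝ) ^ n)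
      Filter.atTop (nhds (μ fun _ => toR H))

variable (μ : MultilinearMap ℝ (fun _ : Fin n => DivR w) ℝ)

/-- `D` is numerically trivial: all intersection numbers with `D` vanish -/
def NumTrivial (D : DivR w) : Prop := ∀ E : Fin n → DivR w, (∃ i, E i = D) → μ E = 0

/-- the class of `D` is ample: numerically equivalent to a positive combination of ample
divisors -/
def AmpleClass (D : DivR w) : Prop :=
  ∃ (r : ℕ) (A : Fin (r + 1) → DivZ w) (c : Fin (r + 1) → ℝ), (∀ i, Ample (A i) ∧ 0 < c i) ∧
    NumTrivial μ (D - ∑ i, c i • toR (A i))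

/-- nef classes: limits of ample classes (Kleiman) -/
def NefClass (D : DivR w) : Prop :=
  ∀ H : DivZ w, Ample H → ∀ ε : ℝ, 0 < ε → AmpleClass μ (D + ε • toR H)

/-- `nd(L) ≥ k`, i.e. `L^k` is not numerically zero -/
def NumDimGe (L : DivR w) (k : ℕ) : Prop :=
  k ≤ n ∧ ∃ E : Fin n → DivR w, (∀ i : Fin n, i.val < k → E i = L) ∧ μ E ≠ 0

end Variety

section Kernel

variable {K : Type} [Field K] [Algebra ℂ K] {N m : ℕ} {w : Fin (N + 1) → K}
  (μ : MultilinearMap ℝ (fun _ : Fin (m + 2) => DivR w) ℝ) (L : Fin m → DivR w)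

/-- supercritical collections: `nd(L_I) ≥ |I| + 2` for all nonempty `I` -/
def Supercritical : Prop :=
  ∀ I : Finset (Fin m), I.Nonempty → NumDimGe μ (∑ i ∈ I, L i) (I.card + 2)

/-- the curve class `L_1 ⋯ L_m · η` is numerically trivial -/
def InKernel (η : DivR w) : Prop := ∀ γ : DivR w, μ (Fin.append L ![η, γ]) = 0

end Kernel

/-- `ker(L_1 ⋯ L_{n-2})` is spanned by the classes of the prime divisors `D` with
`L_1 ⋯ L_{n-2} · D = 0`, for every smooth projective variety of dimension `n = m + 2 ≥ 3` and every
supercritical collection of nef classes. -/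
def KernelTheorem : Prop :=
  ∀ (K : Type) [Field K] [Algebra ℂ K] (N m : ℕ) (w : Fin (N + 1) → K), 1 ≤ m →
    IsSmoothProj w (m + 2) →
    ∀ μ : MultilinearMap ℝ (fun _ : Fin (m + 2) => DivR w) ℝ, IsIntersectionForm μ →
    ∀ L : Fin m → DivR w, (∀ i, NefClass μ (L i)) → Supercritical μ L →
    ∀ η : DivR w, InKernel μ L η ↔
      ∃ E : DivR w, (∀ D ∈ E.support, InKernel μ L (Finsupp.single D 1)) ∧ NumTrivial μ (η - E)

end SC
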