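import Pool.Agent.H93.SC.Defs

/-!
Targets of block B2 (MP_f2954d_ag): valuations, generic sections, the index and its formulas.
-/

namespace SC

/-! ### Valuations -/

/-- restriction of a valuation to a subfield -/
def T_V2 : Prop := ∀ (k K k' L : Type) [Field k] [Field K] [Algebra k K] [Field k'] [Field L]
  [Algebra k' L] [Algebra K L] [Algebra k k'] [Algebra k L] [IsScalarTower k K L]
  [IsScalarTower k k' L] (w : DV k' L), (∃ x : K, w.ord (algebraMap K L x) ≠ 0) →
  ∃ (v : DV k K) (e : ℕ), Over v w e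

/-- residue fields: the compatible homomorphism exists -/
def T_V2r : Prop := ∀ (k K k' L : Type) [Field k] [Field K] [Algebra k K] [Field k'] [Field L]
  [Algebra k' L] [Algebra K L] (v : DV k K) (w : DV k' L) (e : ℕ), Over v w e →
  ∃ φ : v.Res →+* w.Res, ResCompat v w φ

/-- lifting algebraic independence from the residue field -/
def T_V3 : Prop := ∀ (k K : Type) [Field k] [Field K] [Algebra k K] (v : DV k K) (ι : Type)
  (x : ι → K) (t : K), (∀ i, 0 ≤ v.ord (x i)) → AlgebraicIndependent k (fun i => v.red (x i)) →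
  t ≠ 0 → 0 < v.ord t → AlgebraicIndependent k (fun o : Option ι => o.elim t x)

/-- the transcendence degree of a residue field drops -/
def T_V3b : Prop := ∀ (k K : Type) [Field k] [Field K] [Algebra k K] (v : DV k K) (n : ℕ),
  Algebra.trdeg k K = (n + 1 : ℕ) → Algebra.trdeg k v.Res ≤ n

/-- places from the primes of a Dedekind domain -/
def T_V4 : Prop := ∀ (k A K : Type) [Field k] [CommRing A] [IsDomain A] [IsDedekindDomain A] [Field K]
  [Algebra A K] [IsFractionRing A K] [Algebra k A] [Algebra k K] [IsScalarTower k A K]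
  (p : Ideal A) [p.IsPrime], p ≠ ⊥ → ∃ v : DV k K,
    (∀ (a : A) (n : ℕ), a ≠ 0 → ((n : ℤ) ≤ v.ord (algebraMap A K a) ↔ a ∈ p ^ n)) ∧
    (∀ y : v.Res, ∃ a : A, v.red (algebraMap A K a) = y)

/-- a discrete valuation which is nonnegative on a Dedekind domain comes from its center -/
def T_V4u : Prop := ∀ (k k' A K : Type) [Field k] [Field k'] [CommRing A] [IsDomain A]
  [IsDedekindDomain A] [Field K] [Algebra A K] [IsFractionRing A K] [Algebra k K] [Algebra k' K]
  (v : DV k K) (w : DV k' K), (∀ a : A, 0 ≤ v.ord (algebraMap A K a)) →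
  (∀ a : A, 0 ≤ w.ord (algebraMap A K a)) →
  (∀ a : A, 0 < v.ord (algebraMap A K a) → 0 < w.ord (algebraMap A K a)) → v.ord = w.ord

/-- degree of the divisor of poles -/
def T_V5 : Prop := ∀ (k K : Type) [Field k] [CharZero k] [Field K] [Algebra k K] (t : K),
  Transcendental k t → FiniteDimensional (IntermediateField.adjoin k {t}) K →
  {v : DV k K | v.ord t < 0}.Finite ∧ (∀ v : DV k K, v.ord t < 0 → Module.Finite k v.Res) ∧
  ∑ᶠ v : DV k K, (v.deg : ℤ) * max 0 (- v.ord t) =
    Module.finrank (IntermediateField.adjoin k {t}) K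

/-- curves: residue fields are finite -/
def T_V6a : Prop := ∀ (k K : Type) [Field k] [CharZero k] [Field K] [Algebra k K]
  [Algebra.EssFiniteType k K], Algebra.trdeg k K = 1 → ∀ v : DV k K, Module.Finite k v.Res

/-- curves: finitely many zeros and poles -/
def T_V6b : Prop := ∀ (k K : Type) [Field k] [CharZero k] [Field K] [Algebra k K]
  [Algebra.EssFiniteType k K], Algebra.trdeg k K = 1 → ∀ f : K, {v : DV k K | v.ord f ≠ 0}.Finite

/-- curves: product formula -/
def T_V6c : Prop := ∀ (k K : Type) [Field k] [CharZero k] [Field K] [Algebra k K]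
  [Algebra.EssFiniteType k K], Algebra.trdeg k K = 1 → ∀ f : K,
  ∑ᶠ v : DV k K, (v.deg : ℤ) * v.ord f = 0

/-! ### Generic sections and the index -/

/-- degrees do not change under purely transcendental base change -/
def T_G0 : Prop := ∀ (k K L : Type) [Field k] [Field K] [Algebra k K] [Field L] [Algebra K L]
  [Algebra k L] [IsScalarTower k K L] (V : Type) [Finite V] (T : V → L),
  AlgebraicIndependent K T → IntermediateField.adjoin K (Set.range T) = ⊤ →
  Module.finrank (kU k T) L = Module.finrank k K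

/-- the canonical model is a generic complete intersection -/
def T_G1a : Prop := ∀ (K J : Type) [Field K] [Finite J] (S : J → Sys K), (∀ j, (S j).Nz) →
  IsGen S (genU S)

/-- uniqueness of the generic complete intersection -/
def T_G1b : Prop := ∀ (K J L L' : Type) [Field K] [Finite J] [Field L] [Algebra K L] [Field L']
  [Algebra K L'] (S : J → Sys K) (U : Var S → L) (U' : Var S → L'), (∀ j, (S j).Nz) →
  IsGen S U → IsGen S U' → ∃ e : L ≃ₐ[K] L', ∀ x, e (U x) = U' x

/-- one choice of pivots is enough -/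
def T_G1c : Prop := ∀ (K J L : Type) [Field K] [Finite J] [Field L] [Algebra K L]
  (S : J → Sys K) (U : Var S → L) (i0 : ∀ j, Fin (S j).r), (∀ j, (S j).s (i0 j) ≠ 0) →
  (∀ j, ∑ i, algebraMap K L ((S j).s i) * U ⟨j, i⟩ = 0) →
  AlgebraicIndependent K (fun x : {x : Var S // x.2 ≠ i0 x.1} => U x.1) →
  IntermediateField.adjoin K (Set.range U) = ⊤ → IsGen S U

/-- the index can be computed from any generic complete intersection -/
def T_G2 : Prop := ∀ (k K J L : Type) [Field k] [Field K] [Algebra k K] [Finite J] [Field L]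
  [Algebra K L] [Algebra k L] [IsScalarTower k K L] (S : J → Sys K) (U : Var S → L),
  (∀ j, (S j).Nz) → IsGen S U →
  (AlgebraicIndependent k U → Idx S k = Module.finrank (kU k U) L) ∧
  (¬ AlgebraicIndependent k U → Idx S k = 0)

/-- the index is symmetric -/
def T_G2r : Prop := ∀ (k K J J' : Type) [Field k] [Field K] [Algebra k K] [Finite J] [Finite J']
  (S : J → Sys K) (e : J' ≃ J), (∀ j, (S j).Nz) → Idx (fun j => S (e j)) k = Idx S k

/-- the index is invariant under scaling of the systems -/
def T_G2s : Prop := ∀ (k K J : Type) [Field k] [Field K] [Algebra k K] [Finite J]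
  (S : J → Sys K) (c : J → K), (∀ j, (S j).Nz) → (∀ j, c j ≠ 0) →
  Idx (fun j => (S j).map (fun x => c j * x)) k = Idx S k

/-- no system: the index is the degree -/
def T_G2e : Prop := ∀ (k K J : Type) [Field k] [Field K] [Algebra k K] [IsEmpty J]
  (S : J → Sys K), Idx S k = Module.finrank k K

/-- invariance under isomorphisms -/
def T_G2f : Prop := ∀ (k K k' K' J : Type) [Field k] [Field K] [Algebra k K] [Field k'] [Field K']
  [Algebra k' K'] [Finite J] (σ : k ≃+* k') (τ : K ≃+* K'),
  (∀ c, τ (algebraMap k K c) = algebraMap k' K' (σ c)) → ∀ (S : J → Sys K), (∀ j, (S j).Nz) →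
  Idx (fun j => (S j).map τ) k' = Idx S k

/-- two successive generic sections -/
def joinU {K L M J J' : Type} [Field K] [Field L] [Field M] [Algebra K L] [Algebra L M]
    (S : J → Sys K) (T : J' → Sys K) (U : Var S → L) (W : Var (fun j => (T j).up L) → M) :
    Var (Sum.elim S T) → M
  | ⟨Sum.inl j, i⟩ => algebraMap L M (U ⟨j, i⟩)
  | ⟨Sum.inr j, i⟩ => W ⟨j, i⟩

/-- two successive generic sections form a generic section -/
def T_G3 : Prop := ∀ (K L M J J' : Type) [Field K] [Field L] [Field M] [Algebra K L] [Algebra L M]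
  [Algebra K M] [IsScalarTower K L M] [Finite J] [Finite J'] (S : J → Sys K) (T : J' → Sys K)
  (U : Var S → L) (W : Var (fun j => (T j).up L) → M), (∀ j, (S j).Nz) → (∀ j, (T j).Nz) →
  IsGen S U → IsGen (fun j => (T j).up L) W → IsGen (Sum.elim S T) (joinU S T U W)

/-- the index computed in two steps -/
def T_G3i : Prop := ∀ (k K L J J' : Type) [Field k] [Field K] [Field L] [Algebra k K] [Algebra K L]
  [Algebra k L] [IsScalarTower k K L] [Finite J] [Finite J'] (S : J → Sys K) (T : J' → Sys K)
  (U : Var S → L), (∀ j, (S j).Nz) → (∀ j, (T j).Nz) → IsGen S U →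
  (AlgebraicIndependent k U → Idx (Sum.elim S T) k = Idx (fun j => (T j).up L) (kU k U)) ∧
  (¬ AlgebraicIndependent k U → Idx (Sum.elim S T) k = 0)

/-- transcendence degree and finiteness of a generic section -/
def T_G3t : Prop := ∀ (k K L J : Type) [Field k] [Field K] [Field L] [Algebra k K] [Algebra K L]
  [Algebra k L] [IsScalarTower k K L] [Fintype J] [Algebra.EssFiniteType k K] (S : J → Sys K)
  (U : Var S → L) (n : ℕ), (∀ j, (S j).Nz) → IsGen S U → AlgebraicIndependent k U →
  Algebra.trdeg k K = n → Algebra.EssFiniteType (kU k U) L ∧ Fintype.card J ≤ n ∧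
    Algebra.trdeg (kU k U) L = (n - Fintype.card J : ℕ)

/-! ### Gauss extensions -/

/-- existence of the Gauss extension -/
def T_G4 : Prop := ∀ (k K L J : Type) [Field k] [Field K] [Field L] [Algebra k K] [Algebra K L]
  [Algebra k L] [IsScalarTower k K L] [Finite J] (v : DV k K) (S : J → Sys K) (U : Var S → L),
  (∀ j, (S j).Nz) → IsGen S U → ∃ w : DV k L, Gauss v w S U

/-- uniqueness of the Gauss extension: pivots of minimal order, independent residues -/
def T_G4u : Prop := ∀ (k K k' k'' L J : Type) [Field k] [Field K] [Field k'] [Field k''] [Field L]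
  [Algebra k K] [Algebra K L] [Algebra k' L] [Algebra k'' L] [Finite J] (v : DV k K) (w : DV k' L)
  (w' : DV k'' L) (S : J → Sys K) (U : Var S → L) (e : ℕ) (φ : v.Res →+* w'.Res)
  (i0 : ∀ j, Fin (S j).r), (∀ j, (S j).Nz) → IsGen S U → Gauss v w S U → Over v w' e →
  ResCompat v w' φ → (∀ x, 0 ≤ w'.ord (U x)) →
  (∀ j, (S j).s (i0 j) ≠ 0 ∧ v.ord ((S j).s (i0 j)) = v.mo (S j)) →
  (letI : Algebra v.Res w'.Res := φ.toAlgebra
   AlgebraicIndependent v.Res (fun x : {x : Var S // x.2 ≠ i0 x.1} => w'.red (U x.1))) →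
  w'.ord = w.ord

/-- the Gauss property only depends on the order function -/
def T_G4t : Prop := ∀ (k K k' k'' L J : Type) [Field k] [Field K] [Field k'] [Field k''] [Field L]
  [Algebra k K] [Algebra K L] [Algebra k' L] [Algebra k'' L] (v : DV k K) (w : DV k' L)
  (w' : DV k'' L) (S : J → Sys K) (U : Var S → L), w'.ord = w.ord → Gauss v w S U → Gauss v w' S U

/-- degree of a Gauss extension over the generic base field -/
def T_GD : Prop := ∀ (k K L J : Type) [Field k] [Field K] [Field L] [Algebra k K] [Algebra K L]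
  [Algebra k L] [IsScalarTower k K L] [Finite J] (v : DV k K) (S : J → Sys K) (U : Var S → L)
  (w : DV (kU k U) L), (∀ j, (S j).Nz) → IsGen S U → AlgebraicIndependent k U → Gauss v w S U →
  w.deg = Idx (fun j => v.res (S j)) k

/-- a Gauss extension is trivial on the generic base field if the index does not vanish -/
def T_GE : Prop := ∀ (k K L J : Type) [Field k] [Field K] [Field L] [Algebra k K] [Algebra K L]
  [Algebra k L] [IsScalarTower k K L] [Finite J] (v : DV k K) (S : J → Sys K) (U : Var S → L),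
  (∀ j, (S j).Nz) → IsGen S U → Idx (fun j => v.res (S j)) k ≠ 0 →
  AlgebraicIndependent k U ∧ ∃ w : DV (kU k U) L, Gauss v w S U

/-- places of a generic curve which are nontrivial on `K` are Gauss extensions -/
def T_G5 : Prop := ∀ (k K L J : Type) [Field k] [Field K] [Field L] [Algebra k K] [Algebra K L]
  [Algebra k L] [IsScalarTower k K L] [Fintype J] (S : J → Sys K) (U : Var S → L)
  (w : DV (kU k U) L), (∀ j, (S j).Nz) → IsGen S U → AlgebraicIndependent k U →
  Algebra.trdeg k K = (Fintype.card J + 1 : ℕ) → Algebra.IsAlgebraic (kU k U) w.Res →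
  (∃ x : K, w.ord (algebraMap K L x) ≠ 0) → ∃ v : DV k K, Gauss v w S U

/-! ### Intersection formulas -/

/-- curve formula -/
def T_M1 : Prop := ∀ (k K : Type) [Field k] [CharZero k] [Field K] [Algebra k K]
  [Algebra.EssFiniteType k K], Algebra.trdeg k K = 1 → ∀ s : Sys K, s.Nz →
  (Idx (fun _ : Unit => s) k : ℤ) = - ∑ᶠ v : DV k K, (v.deg : ℤ) * v.mo s

/-- product formula in any dimension -/
def T_M8 : Prop := ∀ (k K J : Type) [Field k] [CharZero k] [Field K] [Algebra k K]
  [Algebra.EssFiniteType k K] [Fintype J] (S : J → Sys K), (∀ j, (S j).Nz) →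
  Algebra.trdeg k K = (Fintype.card J + 1 : ℕ) → ∀ f : K,
  {v : DV k K | v.ord f ≠ 0 ∧ Idx (fun j => v.res (S j)) k ≠ 0}.Finite ∧
  ∑ᶠ v : DV k K, v.ord f * (Idx (fun j => v.res (S j)) k : ℤ) = 0

/-- the index as a sum over the discrete valuations -/
def T_M9 : Prop := ∀ (k K J : Type) [Field k] [CharZero k] [Field K] [Algebra k K]
  [Algebra.EssFiniteType k K] [Fintype J] (S : J → Sys K) (s : Sys K), (∀ j, (S j).Nz) → s.Nz →
  Algebra.trdeg k K = (Fintype.card J + 1 : ℕ) →
  {v : DV k K | v.mo s ≠ 0 ∧ Idx (fun j => v.res (S j)) k ≠ 0}.Finite ∧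
  (Idx (Sum.elim (fun _ : Unit => s) S) k : ℤ) =
    - ∑ᶠ v : DV k K, v.mo s * (Idx (fun j => v.res (S j)) k : ℤ)

/-- additivity -/
def T_ADD : Prop := ∀ (k K J : Type) [Field k] [CharZero k] [Field K] [Algebra k K]
  [Algebra.EssFiniteType k K] [Fintype J] (S : J → Sys K) (s t : Sys K), (∀ j, (S j).Nz) →
  s.Nz → t.Nz → Algebra.trdeg k K = (Fintype.card J + 1 : ℕ) →
  Idx (Sum.elim (fun _ : Unit => s.mul t) S) k =
    Idx (Sum.elim (fun _ : Unit => s) S) k + Idx (Sum.elim (fun _ : Unit => t) S) k

/-- monotonicity -/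
def T_MON : Prop := ∀ (k K J : Type) [Field k] [CharZero k] [Field K] [Algebra k K]
  [Algebra.EssFiniteType k K] [Fintype J] (S : J → Sys K) (s t : Sys K), (∀ j, (S j).Nz) →
  s.Nz → t.Nz → Algebra.trdeg k K = (Fintype.card J + 1 : ℕ) → (∀ v : DV k K, v.mo t ≤ v.mo s) →
  Idx (Sum.elim (fun _ : Unit => s) S) k ≤ Idx (Sum.elim (fun _ : Unit => t) S) k

/-- positivity -/
def T_POS : Prop := ∀ (k K J : Type) [Field k] [CharZero k] [Field K] [Algebra k K]
  [Algebra.EssFiniteType k K] [Fintype J] (S : J → Sys K), (∀ j, (S j).Nz) →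
  Algebra.trdeg k K = (Fintype.card J : ℕ) → (∀ j, Generates k (S j)) → Idx S k ≠ 0

end SC
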