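import Pool.Agent.H93.SC.Targets2

/-!
Targets for the existence of the intersection form (MP_f2954d_ag).
-/

namespace SC

/-- an integral divisor as a real one (general index type) -/
noncomputable def toRP {P : Type} (D : P →₀ ℤ) : P →₀ ℝ := D.mapRange (fun z : ℤ => (z : ℝ)) (by simp)

/-- a function which is additive in each variable on a generating submonoid extends to a
multilinear form -/
def T_EXI : Prop := ∀ (P : Type) (n : ℕ) (G : AddSubmonoid (P →₀ ℤ)),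
  (∀ D : P →₀ ℤ, ∃ A ∈ G, ∃ B ∈ G, D = A - B) → ∀ f : (Fin n → P →₀ ℤ) → ℝ,
  (∀ (H : Fin n → P →₀ ℤ) (i : Fin n) (A B : P →₀ ℤ), (∀ j, H j ∈ G) → A ∈ G → B ∈ G →
    f (Function.update H i (A + B)) = f (Function.update H i A) + f (Function.update H i B)) →
  ∃ μ : MultilinearMap ℝ (fun _ : Fin n => P →₀ ℝ) ℝ,
    ∀ H : Fin n → P →₀ ℤ, (∀ j, H j ∈ G) → μ (fun j => toRP (H j)) = f H

/-- uniqueness of the extension -/
def T_EXU : Prop := ∀ (P : Type) (n : ℕ) (G : AddSubmonoid (P →₀ ℤ)),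
  (∀ D : P →₀ ℤ, ∃ A ∈ G, ∃ B ∈ G, D = A - B) →
  ∀ μ ν : MultilinearMap ℝ (fun _ : Fin n => P →₀ ℝ) ℝ,
    (∀ H : Fin n → P →₀ ℤ, (∀ j, H j ∈ G) → μ (fun j => toRP (H j)) = ν (fun j => toRP (H j))) →
    μ = ν

/-- polarisation: symmetric multilinear forms which agree on the diagonal of a generating
subsemigroup agree -/
def T_POL : Prop := ∀ (P : Type) (n : ℕ) (G : Set (P →₀ ℤ)), (∀ A ∈ G, ∀ B ∈ G, A + B ∈ G) →
  (∀ D : P →₀ ℤ, ∃ A ∈ G, ∃ B ∈ G, D = A - B) →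
  ∀ μ ν : MultilinearMap ℝ (fun _ : Fin n => P →₀ ℝ) ℝ,
    (∀ (σ : Equiv.Perm (Fin n)) (D : Fin n → P →₀ ℝ), μ (fun i => D (σ i)) = μ D) →
    (∀ (σ : Equiv.Perm (Fin n)) (D : Fin n → P →₀ ℝ), ν (fun i => D (σ i)) = ν D) →
    (∀ H ∈ G, μ (fun _ => toRP H) = ν (fun _ => toRP H)) → μ = ν

/-- growth along all multiples from growth along the multiples of a fixed one -/
def T_SQZ : Prop := ∀ (n : ℕ) (h : ℕ → ℕ) (M : ℕ) (c : ℝ), 1 ≤ n → 1 ≤ M →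
  Filter.Tendsto (fun m : ℕ => (h (M * m) : ℝ) / (m : ℝ) ^ n) Filter.atTop (nhds c) →
  (∃ t : ℕ, ∀ m : ℕ, t ≤ m → ∀ r : ℕ, r < M → h (M * (m - t) + 0) ≤ h (M * m + r) ∧
    h (M * m + r) ≤ h (M * (m + t))) →
  Filter.Tendsto (fun m : ℕ => (h m : ℝ) / (m : ℝ) ^ n) Filter.atTop (nhds (c / (M : ℝ) ^ n))

end SC
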